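import Pool.Agent.E8helper15.MGR.W8

set_option autoImplicit false
set_option linter.unusedSimpArgs false
set_option linter.unusedTactic false
set_option linter.unreachableTactic false

/-! The handle elements lie in Humphries' group. -/

namespace Pool.Agent.E8helper15.MGR

open Pool.Agent.H29R2.MG Pool.Agent.TH35.MG Pool.Agent.R352.MG Pool.Agent.R665.MGR
  Pool.Agent.E8helper34.MC Pool.Agent.H798R3.MG

section
variable {g p : ℕ} {h : p + 3 < g}

theorem hum_of {φ : orSub g} {f : FG g →* FG g} (hf : ∀ z, (φ : MulAut (FG g)) z = f z)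
    {y : orientedAut g} (hy : toMod g y ∈ Humphries g)
    (hh : ∀ x, y.1 (mk g x) = mk g (f x)) : modF g φ ∈ Humphries g := by
  have e : TQ.qh g φ = y := by
    apply Subtype.ext
    apply MulEquiv.ext
    intro z
    obtain ⟨x, rfl⟩ := mk_surjective g z
    rw [hh, ← hf]
    exact TQ.qe_mk φ x
  show (toMod g) (TQ.qh g φ) ∈ _
  rw [e]
  exact hy

theorem hum_win {φ : orSub g} {f : FG g →* FG g} (hf : ∀ z, (φ : MulAut (FG g)) z = f z)
    {D : Fin 8 → W8} (hD : HD g p h D) (e : f = wx8 g p h D) : modF g φ ∈ Humphries g := by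
  obtain ⟨y, hy, hy'⟩ := hD
  refine hum_of hf hy ?_
  intro x
  rw [hy', e]

theorem ends_fa (f k : ℕ → FG g → FG g) (m : Fin g) : ends g f k (fa m) = f m (fa m) := by
  unfold ends
  conv_lhs => rw [fa]
  rw [FreeGroup.lift_apply_of]
  rfl

theorem ends_fb (f k : ℕ → FG g → FG g) (m : Fin g) : ends g f k (fb m) = k m (fb m) := by
  unfold ends
  conv_lhs => rw [fb]
  rw [FreeGroup.lift_apply_of]
  rfl

theorem ha_eq {m : ℕ} (hm : m < g) : ha g m = fa ⟨m, hm⟩ := dif_pos hm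
theorem hb_eq {m : ℕ} (hm : m < g) : hb g m = fb ⟨m, hm⟩ := dif_pos hm

theorem dd_eq {m : ℕ} (hm : m < g) :
    dd g m = fa ⟨m, hm⟩ * fb ⟨m, hm⟩ * (fa ⟨m, hm⟩)⁻¹ * (fb ⟨m, hm⟩)⁻¹ := by
  unfold dd
  rw [ha_eq hm, hb_eq hm]

theorem De_one (m : ℕ) : De g m (m + 1) = dd g m := by
  unfold De
  rw [Nat.add_sub_cancel_left]
  simp

theorem hT_eq : Pool.Agent.H798R3.MG.hT g p (p + 1) = wx8 g p h eT0 := by
  unfold Pool.Agent.H798R3.MG.hT
  have e1 : uT g p (p + 1) = (fa ⟨p, q0 h⟩ * fb ⟨p, q0 h⟩ * (fa ⟨p, q0 h⟩)⁻¹ *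
      (fb ⟨p, q0 h⟩)⁻¹) * fa ⟨p + 1, q1 h⟩ * (fa ⟨p, q0 h⟩ * fb ⟨p, q0 h⟩ *
      (fa ⟨p, q0 h⟩)⁻¹ * (fb ⟨p, q0 h⟩)⁻¹)⁻¹ * fa ⟨p, q0 h⟩ := by
    unfold uT
    rw [De_one, dd_eq (q0 h), ha_eq (q1 h), ha_eq (q0 h)]
  have e2 : pT g p (p + 1) = (fa ⟨p, q0 h⟩ * fb ⟨p, q0 h⟩ * (fa ⟨p, q0 h⟩)⁻¹ *
      (fb ⟨p, q0 h⟩)⁻¹)⁻¹ * fa ⟨p, q0 h⟩ * (fa ⟨p, q0 h⟩ * fb ⟨p, q0 h⟩ *
      (fa ⟨p, q0 h⟩)⁻¹ * (fb ⟨p, q0 h⟩)⁻¹) * fa ⟨p + 1, q1 h⟩ := by
    unfold pT
    rw [De_one, dd_eq (q0 h), ha_eq (q1 h), ha_eq (q0 h)]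
  rw [e1, e2]
  apply free_ext
  · intro m
    rw [ends_fa, wx8_fa]
    by_cases h1 : (m : ℕ) = p
    · obtain rfl : m = ⟨p, q0 h⟩ := Fin.ext h1
      simp [eT0, ev8_t, ev8_f, ev8_nil, s0, s1, s2, s3, s4, s5, s6, s7]
      try group
    by_cases h2 : (m : ℕ) = p + 1
    · obtain rfl : m = ⟨p + 1, q1 h⟩ := Fin.ext h2
      simp [eT0, ev8_t, ev8_f, ev8_nil, s0, s1, s2, s3, s4, s5, s6, s7]
      try group
    by_cases h3 : (m : ℕ) = p + 2
    · obtain rfl : m = ⟨p + 2, q2 h⟩ := Fin.ext h3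
      simp [eT0, ev8_t, ev8_f, ev8_nil, s0, s1, s2, s3, s4, s5, s6, s7]
    by_cases h4 : (m : ℕ) = p + 3
    · obtain rfl : m = ⟨p + 3, q3 h⟩ := Fin.ext h4
      simp [eT0, ev8_t, ev8_f, ev8_nil, s0, s1, s2, s3, s4, s5, s6, s7]
    simp [h1, h2, h3, h4]
  · intro m
    rw [ends_fb, wx8_fb]
    by_cases h1 : (m : ℕ) = p
    · obtain rfl : m = ⟨p, q0 h⟩ := Fin.ext h1
      simp [eT0, ev8_t, ev8_f, ev8_nil, s0, s1, s2, s3, s4, s5, s6, s7]
      try group
    by_cases h2 : (m : ℕ) = p + 1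
    · obtain rfl : m = ⟨p + 1, q1 h⟩ := Fin.ext h2
      simp [eT0, ev8_t, ev8_f, ev8_nil, s0, s1, s2, s3, s4, s5, s6, s7]
      try group
    by_cases h3 : (m : ℕ) = p + 2
    · obtain rfl : m = ⟨p + 2, q2 h⟩ := Fin.ext h3
      simp [eT0, ev8_t, ev8_f, ev8_nil, s0, s1, s2, s3, s4, s5, s6, s7]
    by_cases h4 : (m : ℕ) = p + 3
    · obtain rfl : m = ⟨p + 3, q3 h⟩ := Fin.ext h4
      simp [eT0, ev8_t, ev8_f, ev8_nil, s0, s1, s2, s3, s4, s5, s6, s7]
    simp [h1, h2, h3, h4]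

theorem hal_eq : hal g (p + 3) p = wx8 g p h eal3 := by
  unfold hal
  rw [dd_eq (q3 h), ha_eq (q0 h)]
  apply free_ext
  · intro m
    rw [ends_fa, wx8_fa]
    by_cases h1 : (m : ℕ) = p
    · obtain rfl : m = ⟨p, q0 h⟩ := Fin.ext h1
      simp [eal3, ev8_t, ev8_f, ev8_nil, s0, s1, s2, s3, s4, s5, s6, s7]
      try group
    by_cases h2 : (m : ℕ) = p + 1
    · obtain rfl : m = ⟨p + 1, q1 h⟩ := Fin.ext h2
      simp [eal3, ev8_t, ev8_f, ev8_nil, s0, s1, s2, s3, s4, s5, s6, s7]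
      try group
    by_cases h3 : (m : ℕ) = p + 2
    · obtain rfl : m = ⟨p + 2, q2 h⟩ := Fin.ext h3
      simp [eal3, ev8_t, ev8_f, ev8_nil, s0, s1, s2, s3, s4, s5, s6, s7]
      try group
    by_cases h4 : (m : ℕ) = p + 3
    · obtain rfl : m = ⟨p + 3, q3 h⟩ := Fin.ext h4
      simp [eal3, ev8_t, ev8_f, ev8_nil, s0, s1, s2, s3, s4, s5, s6, s7]
      try group
    by_cases h5 : (m : ℕ) < p
    · simp [h1, h2, h3, h4, h5]
    · have h6 : ¬ (m : ℕ) < p + 3 := by omega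
      simp [h1, h2, h3, h4, h5, h6]
  · intro m
    rw [ends_fb, wx8_fb]
    by_cases h1 : (m : ℕ) = p
    · obtain rfl : m = ⟨p, q0 h⟩ := Fin.ext h1
      simp [eal3, ev8_t, ev8_f, ev8_nil, s0, s1, s2, s3, s4, s5, s6, s7]
      try group
    by_cases h2 : (m : ℕ) = p + 1
    · obtain rfl : m = ⟨p + 1, q1 h⟩ := Fin.ext h2
      simp [eal3, ev8_t, ev8_f, ev8_nil, s0, s1, s2, s3, s4, s5, s6, s7]
      try group
    by_cases h3 : (m : ℕ) = p + 2
    · obtain rfl : m = ⟨p + 2, q2 h⟩ := Fin.ext h3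
      simp [eal3, ev8_t, ev8_f, ev8_nil, s0, s1, s2, s3, s4, s5, s6, s7]
      try group
    by_cases h4 : (m : ℕ) = p + 3
    · obtain rfl : m = ⟨p + 3, q3 h⟩ := Fin.ext h4
      simp [eal3, ev8_t, ev8_f, ev8_nil, s0, s1, s2, s3, s4, s5, s6, s7]
      try group
    by_cases h5 : (m : ℕ) < p
    · simp [h1, h2, h3, h4, h5]
    · have h6 : ¬ (m : ℕ) < p + 3 := by omega
      simp [h1, h2, h3, h4, h5, h6]

end

section
variable {g : ℕ}

theorem hB_eq {m : ℕ} (hm : m < g) : Pool.Agent.H798R3.MG.hB g m =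
    (fv ⟨2 * m + 1, by omega⟩ : FreeGroup (Fin g ⊕ Fin g) →* _) := by
  have e0 : (fv ⟨2 * m + 1, by omega⟩ : FreeGroup (Fin g ⊕ Fin g) →* _) =
      stepA ⟨m, hm⟩ (fb ⟨m, hm⟩) := by
    unfold fv
    rw [if_neg (by simp <;> omega)]
    have h2 : (2 * m + 1) / 2 = m := by omega
    simp only [h2]
  rw [e0]
  unfold Pool.Agent.H798R3.MG.hB
  rw [hb_eq hm]
  apply free_ext
  · intro k
    rw [ends_fa, stepA_fa]
    simp only [Fin.ext_iff]
  · intro k
    rw [ends_fb, stepA_fb]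

end

open Pool.Agent.E8helper34.MR in
theorem t_A : S_A := by
  intro g hg
  have c : Ctx g (g - 3) (g - 1) := ⟨by omega, by omega, by omega⟩
  obtain ⟨k1, k2, k3⟩ := whyp.k g (g - 3) (g - 1) c.h2 c.hN c.hg
  have r := h_rel whyp c
  set M : Subgroup (orSub g) := (Humphries g).comap (modF g) with hM
  have mA : ∀ i, i + 3 < g → Pool.Agent.H798R3.MG.sA g i ∈ M := by
    intro i hi
    show modF g (Pool.Agent.H798R3.MG.sA g i) ∈ Humphries g
    rw [← twist_eq_at hi (by omega) (AA g i) (AA_twist (by omega))]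
    exact AA_hum (by omega) i (by omega)
  have mB : ∀ i, i + 3 < g → sB g i ∈ M := by
    intro i hi
    have hok := (k1 i (by omega)).2.1
    refine hum_of (f := Pool.Agent.H798R3.MG.hB g i) (fun z => mkS_apply hok z)
      (y := oj g (2 * i + 1) (by omega)) ?_ ?_
    · have e : toMod g (oj g (2 * i + 1) (by omega)) = tt g (2 * i + 1) :=
        (tt_lt (by omega)).symm
      rw [e]
      exact tt_mem (by omega)
    · intro x
      have e2 := hB_eq (g := g) (m := i) (by omega)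
      rw [e2]
      exact sv_mk _ x
  have mT : ∀ i, i + 1 + 3 < g → Pool.Agent.H798R3.MG.sT g i (i + 1) ∈ M := by
    intro i hi
    have hok := k3 i (i + 1) (by omega) (by omega) (by omega)
    exact hum_win (p := i) (h := by omega) (fun z => mkS_apply hok z) (heT0 (by omega)) hT_eq
  have mal0 : sal g (g - 1) (g - 4) ∈ M := by
    obtain ⟨p, rfl⟩ : ∃ p, g = p + 4 := ⟨g - 4, by omega⟩
    have hok := (k1 p (by omega)).2.2.1
    exact hum_win (p := p) (h := by omega) (fun z => mkS_apply hok z) (heal3 (by omega)) hal_eq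
  have mS : ∀ i, i + 1 + 3 < g → Ss (Pool.Agent.H798R3.MG.sA g) (sB g)
      (fun i => Pool.Agent.H798R3.MG.sT g i (i + 1)) i ∈ M := by
    intro i hi
    have a := mA i (by omega)
    have b := mB i (by omega)
    have t := mT i hi
    have b' := mB (i + 1) (by omega)
    have a' := mA (i + 1) (by omega)
    unfold Ss Sw
    repeat' apply mul_mem
    all_goals assumption
  have mal : ∀ k i, i + k + 4 = g → sal g (g - 1) i ∈ M := by
    intro k
    induction k with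
    | zero =>
      intro i hi
      obtain rfl : i = g - 4 := by omega
      exact mal0
    | succ k ih =>
      intro i hi
      have h1 := ih (i + 1) (by omega)
      have h2 := r.sal i (by omega)
      have h3 := mS i (by omega)
      have h4 : sal g (g - 1) i = (Ss (Pool.Agent.H798R3.MG.sA g) (sB g)
          (fun i => Pool.Agent.H798R3.MG.sT g i (i + 1)) i)⁻¹ * (sal g (g - 1) (i + 1) *
          Ss (Pool.Agent.H798R3.MG.sA g) (sB g)
          (fun i => Pool.Agent.H798R3.MG.sT g i (i + 1)) i) := by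
        rw [← h2, inv_mul_cancel_left]
      rw [h4]
      exact mul_mem (inv_mem h3) (mul_mem h1 h3)
  have mal' : ∀ i, i + 3 < g → sal g (g - 1) i ∈ M := fun i hi => mal (g - 4 - i) i (by omega)
  have mbe : ∀ i, i + 3 < g → sbe g (g - 1) i ∈ M := by
    intro i hi
    have h1 := r.B_al i (by omega)
    have h2 : sbe g (g - 1) i = (sB g i * sal g (g - 1) i * (sB g i)⁻¹)⁻¹ *
        sal g (g - 1) i := by
      rw [h1]; group
    rw [h2]
    exact mul_mem (inv_mem (mul_mem (mul_mem (mB i hi) (mal' i hi)) (inv_mem (mB i hi))))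
      (mal' i hi)
  have mtau : stau g (g - 1) ∈ M := by
    have h1 := r.T_be_i 0 (by omega)
    have hU : UU (dl (sal g (g - 1)) (sbe g (g - 1)) 0) (sal g (g - 1) 0)
        (sal g (g - 1) (0 + 1)) ∈ M := by
      have a0 := mal' 0 (by omega)
      have a1 := mal' (0 + 1) (by omega)
      have b0 := mbe 0 (by omega)
      unfold UU dl
      repeat' first | apply mul_mem | apply inv_mem
      all_goals assumption
    have hl := mul_mem (mul_mem (mT 0 (by omega)) (mbe 0 (by omega)))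
      (inv_mem (mT 0 (by omega)))
    rw [h1] at hl
    have h2 := mul_mem (inv_mem (mul_mem (mbe 0 (by omega)) hU)) hl
    rwa [inv_mul_cancel_left] at h2
  exact ⟨fun i hi => ⟨mA i hi, mB i hi, mal' i hi, mbe i hi⟩, mT, mtau⟩

end Pool.Agent.E8helper15.MGR
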