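import Pool.Agent.E8helper34.MR.Stm

set_option autoImplicit false
set_option linter.unusedSimpArgs false
set_option linter.unusedTactic false
set_option linter.unreachableTactic false

/-! Windows of four handles. -/

namespace Pool.Agent.E8helper15.MGR

open Pool.Agent.H29R2.MG Pool.Agent.TH35.MG Pool.Agent.R352.MG Pool.Agent.R665.MGR
  Pool.Agent.E8helper34.MC

/-- words in the letters of the window -/
abbrev W8 : Type := List (Fin 8 × Bool)

/-- substitution followed by free reduction -/
def wsub8 (f : Fin 8 → W8) (L : W8) : W8 :=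
  FreeGroup.reduce (L.flatMap (fun x => if x.2 then f x.1 else FreeGroup.invRev (f x.1)))

/-- composition -/
def cmp8 (D E : Fin 8 → W8) : Fin 8 → W8 := fun i => wsub8 D (E i)

/-- twist about `a_0` -/
def eA0 : Fin 8 → W8 :=
  ![[(0, true)], [(1, true), (0, true)], [(2, true)], [(3, true)], [(4, true)], [(5, true)],
    [(6, true)], [(7, true)]]

/-- twist about `a_1` -/
def eA1 : Fin 8 → W8 :=
  ![[(0, true)], [(1, true)], [(2, true)], [(3, true), (2, true)], [(4, true)], [(5, true)],
    [(6, true)], [(7, true)]]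

/-- twist about `a_2` -/
def eA2 : Fin 8 → W8 :=
  ![[(0, true)], [(1, true)], [(2, true)], [(3, true)], [(4, true)], [(5, true), (4, true)],
    [(6, true)], [(7, true)]]

/-- twist about `a_3` -/
def eA3 : Fin 8 → W8 :=
  ![[(0, true)], [(1, true)], [(2, true)], [(3, true)], [(4, true)], [(5, true)], [(6, true)],
    [(7, true), (6, true)]]

/-- twist about `b_0` -/
def eB0 : Fin 8 → W8 :=
  ![[(0, true), (1, false)], [(1, true)], [(2, true)], [(3, true)], [(4, true)], [(5, true)],
    [(6, true)], [(7, true)]]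

/-- twist about `b_1` -/
def eB1 : Fin 8 → W8 :=
  ![[(0, true)], [(1, true)], [(2, true), (3, false)], [(3, true)], [(4, true)], [(5, true)],
    [(6, true)], [(7, true)]]

/-- twist about `b_2` -/
def eB2 : Fin 8 → W8 :=
  ![[(0, true)], [(1, true)], [(2, true)], [(3, true)], [(4, true), (5, false)], [(5, true)],
    [(6, true)], [(7, true)]]

/-- twist about `b_3` -/
def eB3 : Fin 8 → W8 :=
  ![[(0, true)], [(1, true)], [(2, true)], [(3, true)], [(4, true)], [(5, true)], [(6, true),
    (7, false)], [(7, true)]]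

/-- chain twist between the handles 0 and 1 -/
def eC0 : Fin 8 → W8 :=
  ![[(0, true)], [(2, false), (1, true), (0, true)], [(2, false), (1, true), (0, true), (1,
    false), (2, true), (1, true), (0, false), (1, false), (2, true)], [(3, true), (1, true), (0,
    false), (1, false), (2, true)], [(4, true)], [(5, true)], [(6, true)], [(7, true)]]

/-- chain twist between the handles 1 and 2 -/
def eC1 : Fin 8 → W8 :=
  ![[(0, true)], [(1, true)], [(2, true)], [(4, false), (3, true), (2, true)], [(4, false), (3,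
    true), (2, true), (3, false), (4, true), (3, true), (2, false), (3, false), (4, true)], [(5,
    true), (3, true), (2, false), (3, false), (4, true)], [(6, true)], [(7, true)]]

/-- chain twist between the handles 2 and 3 -/
def eC2 : Fin 8 → W8 :=
  ![[(0, true)], [(1, true)], [(2, true)], [(3, true)], [(4, true)], [(6, false), (5, true), (4,
    true)], [(6, false), (5, true), (4, true), (5, false), (6, true), (5, true), (4, false), (5,
    false), (6, true)], [(7, true), (5, true), (4, false), (5, false), (6, true)]]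

/-- identity -/
def eI : Fin 8 → W8 :=
  ![[(0, true)], [(1, true)], [(2, true)], [(3, true)], [(4, true)], [(5, true)], [(6, true)],
    [(7, true)]]

/-- `(A B A)^2` -/
def eR0 : Fin 8 → W8 :=
  ![[(1, true), (0, false), (1, false)], [(1, true), (0, true), (1, false), (0, false), (1,
    false)], [(2, true)], [(3, true)], [(4, true)], [(5, true)], [(6, true)], [(7, true)]]

/-- its inverse -/
def eRi0 : Fin 8 → W8 :=
  ![[(0, true), (1, true), (0, false), (1, false), (0, false)], [(0, true), (1, false), (0,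
    false)], [(2, true)], [(3, true)], [(4, true)], [(5, true)], [(6, true)], [(7, true)]]

/-- twist about a band sum -/
def eT0 : Fin 8 → W8 :=
  ![[(1, true), (0, false), (1, false), (2, false), (1, true), (0, true), (1, false), (0, true),
    (1, true), (0, false), (1, false), (2, true), (1, true), (0, true), (1, false)], [(1, true),
    (0, true), (1, true), (0, false), (1, false), (2, true), (1, true), (0, true), (1, false)],
    [(2, false), (1, true), (0, true), (1, false), (0, false), (1, true), (0, false), (1,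
    false), (2, true), (1, true), (0, true), (1, false), (0, true), (1, true), (0, false), (1,
    false), (2, true)], [(3, true), (1, true), (0, true), (1, false), (0, true), (1, true), (0,
    false), (1, false), (2, true)], [(4, true)], [(5, true)], [(6, true)], [(7, true)]]

/-- `(A B A)^2` -/
def eR1 : Fin 8 → W8 :=
  ![[(0, true)], [(1, true)], [(3, true), (2, false), (3, false)], [(3, true), (2, true), (3,
    false), (2, false), (3, false)], [(4, true)], [(5, true)], [(6, true)], [(7, true)]]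

/-- its inverse -/
def eRi1 : Fin 8 → W8 :=
  ![[(0, true)], [(1, true)], [(2, true), (3, true), (2, false), (3, false), (2, false)], [(2,
    true), (3, false), (2, false)], [(4, true)], [(5, true)], [(6, true)], [(7, true)]]

/-- twist about a band sum -/
def eT1 : Fin 8 → W8 :=
  ![[(0, true)], [(1, true)], [(3, true), (2, false), (3, false), (4, false), (3, true), (2,
    true), (3, false), (2, true), (3, true), (2, false), (3, false), (4, true), (3, true), (2,
    true), (3, false)], [(3, true), (2, true), (3, true), (2, false), (3, false), (4, true), (3,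
    true), (2, true), (3, false)], [(4, false), (3, true), (2, true), (3, false), (2, false),
    (3, true), (2, false), (3, false), (4, true), (3, true), (2, true), (3, false), (2, true),
    (3, true), (2, false), (3, false), (4, true)], [(5, true), (3, true), (2, true), (3, false),
    (2, true), (3, true), (2, false), (3, false), (4, true)], [(6, true)], [(7, true)]]

/-- `(A B A)^2` -/
def eR2 : Fin 8 → W8 :=
  ![[(0, true)], [(1, true)], [(2, true)], [(3, true)], [(5, true), (4, false), (5, false)],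
    [(5, true), (4, true), (5, false), (4, false), (5, false)], [(6, true)], [(7, true)]]

/-- its inverse -/
def eRi2 : Fin 8 → W8 :=
  ![[(0, true)], [(1, true)], [(2, true)], [(3, true)], [(4, true), (5, true), (4, false), (5,
    false), (4, false)], [(4, true), (5, false), (4, false)], [(6, true)], [(7, true)]]

/-- twist about a band sum -/
def eT2 : Fin 8 → W8 :=
  ![[(0, true)], [(1, true)], [(2, true)], [(3, true)], [(5, true), (4, false), (5, false), (6,
    false), (5, true), (4, true), (5, false), (4, true), (5, true), (4, false), (5, false), (6,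
    true), (5, true), (4, true), (5, false)], [(5, true), (4, true), (5, true), (4, false), (5,
    false), (6, true), (5, true), (4, true), (5, false)], [(6, false), (5, true), (4, true), (5,
    false), (4, false), (5, true), (4, false), (5, false), (6, true), (5, true), (4, true), (5,
    false), (4, true), (5, true), (4, false), (5, false), (6, true)], [(7, true), (5, true), (4,
    true), (5, false), (4, true), (5, true), (4, false), (5, false), (6, true)]]

/-- `(A B A)^4` -/
def eQ : Fin 8 → W8 :=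
  ![[(1, true), (0, true), (1, false), (0, true), (1, true), (0, false), (1, false)], [(1,
    true), (0, true), (1, false), (0, false), (1, true), (0, true), (1, true), (0, false), (1,
    false)], [(2, true)], [(3, true)], [(4, true)], [(5, true)], [(6, true)], [(7, true)]]

/-- its inverse -/
def eQi : Fin 8 → W8 :=
  ![[(0, true), (1, true), (0, false), (1, false), (0, true), (1, true), (0, true), (1, false),
    (0, false)], [(0, true), (1, true), (0, false), (1, true), (0, true), (1, false), (0,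
    false)], [(2, true)], [(3, true)], [(4, true)], [(5, true)], [(6, true)], [(7, true)]]

/-- inverse of `A` -/
def eAi : Fin 8 → W8 :=
  ![[(0, true)], [(1, true), (0, false)], [(2, true)], [(3, true)], [(4, true)], [(5, true)],
    [(6, true)], [(7, true)]]

/-- `A_1 B_1 T_0` -/
def eM : Fin 8 → W8 :=
  ![[(1, true), (0, false), (1, false), (3, true), (1, true), (0, true), (1, false), (0, true),
    (1, true), (0, false), (1, false), (3, false), (1, true), (0, true), (1, false)], [(1,
    true), (0, true), (1, true), (0, false), (1, false), (3, false), (1, true), (0, true), (1,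
    false)], [(3, true), (1, true), (0, true), (1, false), (0, false), (1, true), (0, false),
    (1, false), (3, false), (1, true), (0, true), (1, false), (0, true), (1, true), (0, false),
    (1, false), (3, false)], [(3, true), (2, true), (1, true), (0, true), (1, false), (0, true),
    (1, true), (0, false), (1, false), (3, false)], [(4, true)], [(5, true)], [(6, true)], [(7,
    true)]]

/-- its fourth power -/
def eM4 : Fin 8 → W8 :=
  ![[(1, true), (0, false), (1, false), (3, true), (2, true), (3, false), (2, false), (1, true),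
    (0, true), (1, false), (0, true), (1, true), (0, false), (1, false), (2, true), (3, true),
    (2, false), (3, false), (1, true), (0, true), (1, false)], [(1, true), (0, true), (0, true),
    (1, true), (0, false), (1, false), (2, true), (3, true), (2, false), (3, false), (1, true),
    (0, true), (1, false)], [(3, true), (2, true), (3, false), (2, false), (1, true), (0, true),
    (1, false), (0, false), (1, true), (0, false), (1, false), (2, true), (1, true), (0, true),
    (1, false), (0, true), (1, true), (0, false), (1, false), (2, true), (3, true), (2, false),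
    (3, false)], [(3, true), (2, true), (3, false), (2, false), (1, true), (0, true), (1,
    false), (0, false), (1, true), (0, false), (1, false), (3, true), (1, true), (0, true), (1,
    false), (0, true), (1, true), (0, false), (1, false), (2, true), (3, true), (2, false), (3,
    false)], [(4, true)], [(5, true)], [(6, true)], [(7, true)]]

/-- push along `a_0` -/
def eal1 : Fin 8 → W8 :=
  ![[(3, true), (2, true), (3, false), (2, false), (0, true), (2, true), (3, true), (2, false),
    (3, false)], [(3, true), (2, true), (3, false), (2, false), (0, false), (2, true), (3,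
    true), (2, false), (3, false), (0, true), (1, true), (2, true), (3, true), (2, false), (3,
    false)], [(3, true), (2, true), (3, false), (2, false), (0, false), (2, true), (0, true),
    (2, true), (3, true), (2, false), (3, false)], [(3, true), (2, true), (3, false), (2,
    false), (0, false), (3, true), (0, true), (2, true), (3, true), (2, false), (3, false)],
    [(4, true)], [(5, true)], [(6, true)], [(7, true)]]

/-- exchange of handles -/
def eS1 : Fin 8 → W8 :=
  ![[(0, true)], [(1, true)], [(4, true)], [(5, true)], [(5, true), (4, true), (5, false), (4,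
    false), (3, true), (2, true), (3, false), (2, true), (3, true), (2, false), (3, false), (4,
    true), (5, true), (4, false), (5, false)], [(5, true), (4, true), (5, false), (4, false),
    (3, true), (2, true), (3, false), (2, false), (3, true), (2, true), (3, true), (2, false),
    (3, false), (4, true), (5, true), (4, false), (5, false)], [(6, true)], [(7, true)]]

/-- its inverse -/
def eSi1 : Fin 8 → W8 :=
  ![[(0, true)], [(1, true)], [(2, true), (3, true), (2, false), (3, false), (4, true), (5,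
    true), (4, false), (5, false), (4, true), (5, true), (4, true), (5, false), (4, false), (3,
    true), (2, true), (3, false), (2, false)], [(2, true), (3, true), (2, false), (3, false),
    (4, true), (5, true), (4, false), (5, true), (4, true), (5, false), (4, false), (3, true),
    (2, true), (3, false), (2, false)], [(2, true)], [(3, true)], [(6, true)], [(7, true)]]

/-- push along `a_0` -/
def eal2 : Fin 8 → W8 :=
  ![[(5, true), (4, true), (5, false), (4, false), (0, true), (4, true), (5, true), (4, false),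
    (5, false)], [(5, true), (4, true), (5, false), (4, false), (0, false), (4, true), (5,
    true), (4, false), (5, false), (0, true), (1, true), (4, true), (5, true), (4, false), (5,
    false)], [(5, true), (4, true), (5, false), (4, false), (0, false), (4, true), (5, true),
    (4, false), (5, false), (0, true), (2, true), (0, false), (5, true), (4, true), (5, false),
    (4, false), (0, true), (4, true), (5, true), (4, false), (5, false)], [(5, true), (4, true),
    (5, false), (4, false), (0, false), (4, true), (5, true), (4, false), (5, false), (0, true),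
    (3, true), (0, false), (5, true), (4, true), (5, false), (4, false), (0, true), (4, true),
    (5, true), (4, false), (5, false)], [(5, true), (4, true), (5, false), (4, false), (0,
    false), (4, true), (0, true), (4, true), (5, true), (4, false), (5, false)], [(5, true), (4,
    true), (5, false), (4, false), (0, false), (5, true), (0, true), (4, true), (5, true), (4,
    false), (5, false)], [(6, true)], [(7, true)]]

/-- exchange of handles -/
def eS2 : Fin 8 → W8 :=
  ![[(0, true)], [(1, true)], [(2, true)], [(3, true)], [(6, true)], [(7, true)], [(7, true),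
    (6, true), (7, false), (6, false), (5, true), (4, true), (5, false), (4, true), (5, true),
    (4, false), (5, false), (6, true), (7, true), (6, false), (7, false)], [(7, true), (6,
    true), (7, false), (6, false), (5, true), (4, true), (5, false), (4, false), (5, true), (4,
    true), (5, true), (4, false), (5, false), (6, true), (7, true), (6, false), (7, false)]]

/-- its inverse -/
def eSi2 : Fin 8 → W8 :=
  ![[(0, true)], [(1, true)], [(2, true)], [(3, true)], [(4, true), (5, true), (4, false), (5,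
    false), (6, true), (7, true), (6, false), (7, false), (6, true), (7, true), (6, true), (7,
    false), (6, false), (5, true), (4, true), (5, false), (4, false)], [(4, true), (5, true),
    (4, false), (5, false), (6, true), (7, true), (6, false), (7, true), (6, true), (7, false),
    (6, false), (5, true), (4, true), (5, false), (4, false)], [(4, true)], [(5, true)]]

/-- push along `a_0` -/
def eal3 : Fin 8 → W8 :=
  ![[(7, true), (6, true), (7, false), (6, false), (0, true), (6, true), (7, true), (6, false),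
    (7, false)], [(7, true), (6, true), (7, false), (6, false), (0, false), (6, true), (7,
    true), (6, false), (7, false), (0, true), (1, true), (6, true), (7, true), (6, false), (7,
    false)], [(7, true), (6, true), (7, false), (6, false), (0, false), (6, true), (7, true),
    (6, false), (7, false), (0, true), (2, true), (0, false), (7, true), (6, true), (7, false),
    (6, false), (0, true), (6, true), (7, true), (6, false), (7, false)], [(7, true), (6, true),
    (7, false), (6, false), (0, false), (6, true), (7, true), (6, false), (7, false), (0, true),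
    (3, true), (0, false), (7, true), (6, true), (7, false), (6, false), (0, true), (6, true),
    (7, true), (6, false), (7, false)], [(7, true), (6, true), (7, false), (6, false), (0,
    false), (6, true), (7, true), (6, false), (7, false), (0, true), (4, true), (0, false), (7,
    true), (6, true), (7, false), (6, false), (0, true), (6, true), (7, true), (6, false), (7,
    false)], [(7, true), (6, true), (7, false), (6, false), (0, false), (6, true), (7, true),
    (6, false), (7, false), (0, true), (5, true), (0, false), (7, true), (6, true), (7, false),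
    (6, false), (0, true), (6, true), (7, true), (6, false), (7, false)], [(7, true), (6, true),
    (7, false), (6, false), (0, false), (6, true), (0, true), (6, true), (7, true), (6, false),
    (7, false)], [(7, true), (6, true), (7, false), (6, false), (0, false), (7, true), (0,
    true), (6, true), (7, true), (6, false), (7, false)]]

section
variable (g p : ℕ)

/-- the values of the letters -/
def sg8 (h : p + 3 < g) : Fin 8 → FreeGroup (Fin g ⊕ Fin g) :=
  ![fa ⟨p, by omega⟩, fb ⟨p, by omega⟩, fa ⟨p + 1, by omega⟩, fb ⟨p + 1, by omega⟩,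
    fa ⟨p + 2, by omega⟩, fb ⟨p + 2, by omega⟩, fa ⟨p + 3, h⟩, fb ⟨p + 3, h⟩]

/-- the value of a word -/
def ev8 (h : p + 3 < g) (L : W8) : FreeGroup (Fin g ⊕ Fin g) :=
  FreeGroup.lift (sg8 g p h) (FreeGroup.mk L)

/-- the endomorphism with given data -/
def wx8 (h : p + 3 < g) (D : Fin 8 → W8) :
    FreeGroup (Fin g ⊕ Fin g) →* FreeGroup (Fin g ⊕ Fin g) :=
  FreeGroup.lift (Sum.elim
    (fun m => if (m : ℕ) = p then ev8 g p h (D 0) else if (m : ℕ) = p + 1 then ev8 g p h (D 2)
      else if (m : ℕ) = p + 2 then ev8 g p h (D 4) else if (m : ℕ) = p + 3 then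
        ev8 g p h (D 6) else fa m)
    (fun m => if (m : ℕ) = p then ev8 g p h (D 1) else if (m : ℕ) = p + 1 then ev8 g p h (D 3)
      else if (m : ℕ) = p + 2 then ev8 g p h (D 5) else if (m : ℕ) = p + 3 then
        ev8 g p h (D 7) else fb m))

variable {g p} {h : p + 3 < g}

theorem wx8_fa (D : Fin 8 → W8) (m : Fin g) : wx8 g p h D (fa m) =
    if (m : ℕ) = p then ev8 g p h (D 0) else if (m : ℕ) = p + 1 then ev8 g p h (D 2)
      else if (m : ℕ) = p + 2 then ev8 g p h (D 4) else if (m : ℕ) = p + 3 then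
        ev8 g p h (D 6) else fa m := by
  conv_lhs => rw [fa]
  unfold wx8
  rw [FreeGroup.lift_apply_of]
  rfl

theorem wx8_fb (D : Fin 8 → W8) (m : Fin g) : wx8 g p h D (fb m) =
    if (m : ℕ) = p then ev8 g p h (D 1) else if (m : ℕ) = p + 1 then ev8 g p h (D 3)
      else if (m : ℕ) = p + 2 then ev8 g p h (D 5) else if (m : ℕ) = p + 3 then
        ev8 g p h (D 7) else fb m := by
  conv_lhs => rw [fb]
  unfold wx8
  rw [FreeGroup.lift_apply_of]
  rfl

theorem ev8_append (L L' : W8) : ev8 g p h (L ++ L') = ev8 g p h L * ev8 g p h L' := by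
  simp only [ev8]
  rw [← FreeGroup.mul_mk, map_mul]

theorem ev8_nil : ev8 g p h [] = 1 := by
  simp only [ev8]
  rw [← FreeGroup.one_eq_mk, map_one]

theorem ev8_t (k : Fin 8) (L : W8) :
    ev8 g p h ((k, true) :: L) = sg8 g p h k * ev8 g p h L := by
  unfold ev8
  rw [FreeGroup.lift_mk, FreeGroup.lift_mk]; rfl

theorem ev8_f (k : Fin 8) (L : W8) :
    ev8 g p h ((k, false) :: L) = (sg8 g p h k)⁻¹ * ev8 g p h L := by
  unfold ev8
  rw [FreeGroup.lift_mk, FreeGroup.lift_mk]; rfl

theorem ev8_reduce (L : W8) : ev8 g p h (FreeGroup.reduce L) = ev8 g p h L := by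
  simp only [ev8]
  rw [FreeGroup.reduce.self]

theorem ev8_invRev (L : W8) : ev8 g p h (FreeGroup.invRev L) = (ev8 g p h L)⁻¹ := by
  simp only [ev8]
  rw [← FreeGroup.inv_mk, map_inv]

theorem s0 : sg8 g p h 0 = fa ⟨p, by omega⟩ := rfl
theorem s1 : sg8 g p h 1 = fb ⟨p, by omega⟩ := rfl
theorem s2 : sg8 g p h 2 = fa ⟨p + 1, by omega⟩ := rfl
theorem s3 : sg8 g p h 3 = fb ⟨p + 1, by omega⟩ := rfl
theorem s4 : sg8 g p h 4 = fa ⟨p + 2, by omega⟩ := rfl
theorem s5 : sg8 g p h 5 = fb ⟨p + 2, by omega⟩ := rfl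
theorem s6 : sg8 g p h 6 = fa ⟨p + 3, h⟩ := rfl
theorem s7 : sg8 g p h 7 = fb ⟨p + 3, h⟩ := rfl

theorem wx8_sg (D : Fin 8 → W8) (k : Fin 8) : wx8 g p h D (sg8 g p h k) = ev8 g p h (D k) := by
  fin_cases k
  · show wx8 g p h D (fa ⟨p, by omega⟩) = _
    rw [wx8_fa, if_pos rfl]; rfl
  · show wx8 g p h D (fb ⟨p, by omega⟩) = _
    rw [wx8_fb, if_pos rfl]; rfl
  · show wx8 g p h D (fa ⟨p + 1, by omega⟩) = _
    rw [wx8_fa, if_neg (by simp), if_pos rfl]; rfl
  · show wx8 g p h D (fb ⟨p + 1, by omega⟩) = _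
    rw [wx8_fb, if_neg (by simp), if_pos rfl]; rfl
  · show wx8 g p h D (fa ⟨p + 2, by omega⟩) = _
    rw [wx8_fa, if_neg (by simp), if_neg (by simp), if_pos rfl]; rfl
  · show wx8 g p h D (fb ⟨p + 2, by omega⟩) = _
    rw [wx8_fb, if_neg (by simp), if_neg (by simp), if_pos rfl]; rfl
  · show wx8 g p h D (fa ⟨p + 3, by omega⟩) = _
    rw [wx8_fa, if_neg (by simp), if_neg (by simp), if_neg (by simp), if_pos rfl]; rfl
  · show wx8 g p h D (fb ⟨p + 3, by omega⟩) = _
    rw [wx8_fb, if_neg (by simp), if_neg (by simp), if_neg (by simp), if_pos rfl]; rfl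

theorem wx8_ev (D : Fin 8 → W8) (L : W8) :
    wx8 g p h D (ev8 g p h L) = ev8 g p h (wsub8 D L) := by
  rw [wsub8, ev8_reduce]
  induction L with
  | nil => rw [ev8_nil, map_one, List.flatMap_nil, ev8_nil]
  | cons x L ih =>
    rw [List.flatMap_cons, ev8_append, ← ih]
    obtain ⟨i, b⟩ := x
    cases b
    · rw [ev8_f, map_mul, map_inv, wx8_sg, if_neg (by simp), ev8_invRev]
    · rw [ev8_t, map_mul, wx8_sg, if_pos rfl]

theorem wx8_comp (D E : Fin 8 → W8) (x : FreeGroup (Fin g ⊕ Fin g)) :
    wx8 g p h D (wx8 g p h E x) = wx8 g p h (cmp8 D E) x := by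
  have e : (wx8 g p h D).comp (wx8 g p h E) = wx8 g p h (cmp8 D E) := by
    apply free_ext
    · intro m
      rw [MonoidHom.comp_apply, wx8_fa, wx8_fa]
      split_ifs with h1 h2 h3 h4
      · exact wx8_ev _ _
      · exact wx8_ev _ _
      · exact wx8_ev _ _
      · exact wx8_ev _ _
      · rw [wx8_fa, if_neg h1, if_neg h2, if_neg h3, if_neg h4]
    · intro m
      rw [MonoidHom.comp_apply, wx8_fb, wx8_fb]
      split_ifs with h1 h2 h3 h4
      · exact wx8_ev _ _
      · exact wx8_ev _ _
      · exact wx8_ev _ _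
      · exact wx8_ev _ _
      · rw [wx8_fb, if_neg h1, if_neg h2, if_neg h3, if_neg h4]
  exact DFunLike.congr_fun e x


theorem q0 (h : p + 3 < g) : p < g := by omega
theorem q1 (h : p + 3 < g) : p + 1 < g := by omega
theorem q2 (h : p + 3 < g) : p + 2 < g := by omega
theorem q3 (h : p + 3 < g) : p + 3 < g := by omega

theorem wx8_one (x : FreeGroup (Fin g ⊕ Fin g)) : wx8 g p h eI x = x := by
  have e : wx8 g p h eI = MonoidHom.id _ := by
    apply free_ext
    · intro m
      rw [wx8_fa]
      split_ifs with h1 h2 h3 h4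
      · obtain rfl : m = ⟨p, q0 h⟩ := Fin.ext h1
        simp [eI, ev8_t, ev8_nil, s0]
      · obtain rfl : m = ⟨p + 1, q1 h⟩ := Fin.ext h2
        simp [eI, ev8_t, ev8_nil, s2]
      · obtain rfl : m = ⟨p + 2, q2 h⟩ := Fin.ext h3
        simp [eI, ev8_t, ev8_nil, s4]
      · obtain rfl : m = ⟨p + 3, q3 h⟩ := Fin.ext h4
        simp [eI, ev8_t, ev8_nil, s6]
      · rfl
    · intro m
      rw [wx8_fb]
      split_ifs with h1 h2 h3 h4
      · obtain rfl : m = ⟨p, q0 h⟩ := Fin.ext h1
        simp [eI, ev8_t, ev8_nil, s1]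
      · obtain rfl : m = ⟨p + 1, q1 h⟩ := Fin.ext h2
        simp [eI, ev8_t, ev8_nil, s3]
      · obtain rfl : m = ⟨p + 2, q2 h⟩ := Fin.ext h3
        simp [eI, ev8_t, ev8_nil, s5]
      · obtain rfl : m = ⟨p + 3, q3 h⟩ := Fin.ext h4
        simp [eI, ev8_t, ev8_nil, s7]
      · rfl
  rw [e]; rfl

variable (g p h) in
/-- the data `D` are realised by an element of Humphries' group -/
def HD (D : Fin 8 → W8) : Prop :=
  ∃ y : orientedAut g, toMod g y ∈ Humphries g ∧ ∀ x, y.1 (mk g x) = mk g (wx8 g p h D x)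

theorem HD.mul {D E F : Fin 8 → W8} (h1 : HD g p h D) (h2 : HD g p h E) (e : cmp8 D E = F) :
    HD g p h F := by
  obtain ⟨y, hy, hy'⟩ := h1
  obtain ⟨z, hz, hz'⟩ := h2
  refine ⟨y * z, ?_, fun x => ?_⟩
  · rw [map_mul]
    exact mul_mem hy hz
  · rw [Subgroup.coe_mul, MulAut.mul_apply, hz', hy', wx8_comp, e]

theorem HD.inv {D E : Fin 8 → W8} (h1 : HD g p h D) (e : cmp8 D E = eI) :
    HD g p h E := by
  obtain ⟨y, hy, hy'⟩ := h1
  refine ⟨y⁻¹, ?_, fun x => ?_⟩
  · rw [map_inv]
    exact inv_mem hy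
  · rw [InvMemClass.coe_inv]
    have e2 : y.1 (mk g (wx8 g p h E x)) = mk g x := by rw [hy', wx8_comp, e, wx8_one]
    rw [← e2, MulAut.inv_apply_self]

theorem AA_hum (hg : 2 ≤ g) : ∀ m, m < g → AA g m ∈ Humphries g := by
  intro m
  induction m using Nat.strong_induction_on with
  | _ m ih =>
    intro hm
    match m, ih, hm with
    | 0, _, hm =>
      rw [← tt_zero' hm]
      exact tt_mem (by omega)
    | 1, _, hm => exact e_mem (AA_twist hm)
    | m + 2, ih, hm =>
      have h1 := relZ (g := g) (p := m) hm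
      have hz : Zw (tt g (2 * m + 1)) (tt g (2 * m + 2)) (tt g (2 * m + 3)) (AA g (m + 1))
          (tt g (2 * m + 4)) (tt g (2 * m + 5)) ∈ Humphries g := by
        have t1 : tt g (2 * m + 1) ∈ Humphries g := tt_mem (by omega)
        have t2 : tt g (2 * m + 2) ∈ Humphries g := tt_mem (by omega)
        have t3 : tt g (2 * m + 3) ∈ Humphries g := tt_mem (by omega)
        have t4 : tt g (2 * m + 4) ∈ Humphries g := tt_mem (by omega)
        have t5 : tt g (2 * m + 5) ∈ Humphries g := tt_mem (by omega)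
        have a1 : AA g (m + 1) ∈ Humphries g := ih (m + 1) (by omega) (by omega)
        unfold Zw
        repeat' apply mul_mem
        all_goals assumption
      have h2 := ih m (by omega) (by omega)
      have h3 : AA g (m + 2) = (Zw (tt g (2 * m + 1)) (tt g (2 * m + 2)) (tt g (2 * m + 3))
          (AA g (m + 1)) (tt g (2 * m + 4)) (tt g (2 * m + 5)))⁻¹ * (AA g m *
          Zw (tt g (2 * m + 1)) (tt g (2 * m + 2)) (tt g (2 * m + 3)) (AA g (m + 1))
          (tt g (2 * m + 4)) (tt g (2 * m + 5))) := by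
        rw [h1, inv_mul_cancel_left]
      rw [h3]
      exact mul_mem (inv_mem hz) (mul_mem h2 hz)

theorem heA0 (h : p + 3 < g) : HD g p h eA0 := by
  refine ⟨oA g (p) (by omega), ?_, ?_⟩
  · have e : toMod g (oA g (p) (by omega)) = AA g (p) := (AA_lt (by omega)).symm
    rw [e]
    exact AA_hum (by omega) _ (by omega)
  intro x
  have e : hT g (p) = wx8 g p h eA0 := by
    apply free_ext
    · intro m
      rw [hT_fa, wx8_fa]
      by_cases h1 : (m : ℕ) = p
      · obtain rfl : m = ⟨p, q0 h⟩ := Fin.ext h1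
        simp [eA0, ev8_t, ev8_f, ev8_nil, s0, s1, s2, s3, s4, s5, s6, s7]
        try group
      by_cases h2 : (m : ℕ) = p + 1
      · obtain rfl : m = ⟨p + 1, q1 h⟩ := Fin.ext h2
        simp [eA0, ev8_t, ev8_f, ev8_nil, s0, s1, s2, s3, s4, s5, s6, s7]
        try group
      by_cases h3 : (m : ℕ) = p + 2
      · obtain rfl : m = ⟨p + 2, q2 h⟩ := Fin.ext h3
        simp [eA0, ev8_t, ev8_f, ev8_nil, s0, s1, s2, s3, s4, s5, s6, s7]
        try group
      by_cases h4 : (m : ℕ) = p + 3
      · obtain rfl : m = ⟨p + 3, q3 h⟩ := Fin.ext h4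
        simp [eA0, ev8_t, ev8_f, ev8_nil, s0, s1, s2, s3, s4, s5, s6, s7]
        try group
      simp [h1, h2, h3, h4]
    · intro m
      rw [hT_fb, wx8_fb]
      by_cases h1 : (m : ℕ) = p
      · obtain rfl : m = ⟨p, q0 h⟩ := Fin.ext h1
        simp [eA0, ev8_t, ev8_f, ev8_nil, s0, s1, s2, s3, s4, s5, s6, s7]
        try group
      by_cases h2 : (m : ℕ) = p + 1
      · obtain rfl : m = ⟨p + 1, q1 h⟩ := Fin.ext h2
        simp [eA0, ev8_t, ev8_f, ev8_nil, s0, s1, s2, s3, s4, s5, s6, s7]
        try group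
      by_cases h3 : (m : ℕ) = p + 2
      · obtain rfl : m = ⟨p + 2, q2 h⟩ := Fin.ext h3
        simp [eA0, ev8_t, ev8_f, ev8_nil, s0, s1, s2, s3, s4, s5, s6, s7]
        try group
      by_cases h4 : (m : ℕ) = p + 3
      · obtain rfl : m = ⟨p + 3, q3 h⟩ := Fin.ext h4
        simp [eA0, ev8_t, ev8_f, ev8_nil, s0, s1, s2, s3, s4, s5, s6, s7]
        try group
      simp [h1, h2, h3, h4]
  show tw g (p) (mk g x) = _
  rw [tw_mk, e]

theorem heA1 (h : p + 3 < g) : HD g p h eA1 := by
  refine ⟨oA g (p + 1) (by omega), ?_, ?_⟩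
  · have e : toMod g (oA g (p + 1) (by omega)) = AA g (p + 1) := (AA_lt (by omega)).symm
    rw [e]
    exact AA_hum (by omega) _ (by omega)
  intro x
  have e : hT g (p + 1) = wx8 g p h eA1 := by
    apply free_ext
    · intro m
      rw [hT_fa, wx8_fa]
      by_cases h1 : (m : ℕ) = p
      · obtain rfl : m = ⟨p, q0 h⟩ := Fin.ext h1
        simp [eA1, ev8_t, ev8_f, ev8_nil, s0, s1, s2, s3, s4, s5, s6, s7]
        try group
      by_cases h2 : (m : ℕ) = p + 1
      · obtain rfl : m = ⟨p + 1, q1 h⟩ := Fin.ext h2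
        simp [eA1, ev8_t, ev8_f, ev8_nil, s0, s1, s2, s3, s4, s5, s6, s7]
        try group
      by_cases h3 : (m : ℕ) = p + 2
      · obtain rfl : m = ⟨p + 2, q2 h⟩ := Fin.ext h3
        simp [eA1, ev8_t, ev8_f, ev8_nil, s0, s1, s2, s3, s4, s5, s6, s7]
        try group
      by_cases h4 : (m : ℕ) = p + 3
      · obtain rfl : m = ⟨p + 3, q3 h⟩ := Fin.ext h4
        simp [eA1, ev8_t, ev8_f, ev8_nil, s0, s1, s2, s3, s4, s5, s6, s7]
        try group
      simp [h1, h2, h3, h4]
    · intro m
      rw [hT_fb, wx8_fb]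
      by_cases h1 : (m : ℕ) = p
      · obtain rfl : m = ⟨p, q0 h⟩ := Fin.ext h1
        simp [eA1, ev8_t, ev8_f, ev8_nil, s0, s1, s2, s3, s4, s5, s6, s7]
        try group
      by_cases h2 : (m : ℕ) = p + 1
      · obtain rfl : m = ⟨p + 1, q1 h⟩ := Fin.ext h2
        simp [eA1, ev8_t, ev8_f, ev8_nil, s0, s1, s2, s3, s4, s5, s6, s7]
        try group
      by_cases h3 : (m : ℕ) = p + 2
      · obtain rfl : m = ⟨p + 2, q2 h⟩ := Fin.ext h3
        simp [eA1, ev8_t, ev8_f, ev8_nil, s0, s1, s2, s3, s4, s5, s6, s7]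
        try group
      by_cases h4 : (m : ℕ) = p + 3
      · obtain rfl : m = ⟨p + 3, q3 h⟩ := Fin.ext h4
        simp [eA1, ev8_t, ev8_f, ev8_nil, s0, s1, s2, s3, s4, s5, s6, s7]
        try group
      simp [h1, h2, h3, h4]
  show tw g (p + 1) (mk g x) = _
  rw [tw_mk, e]

theorem heA2 (h : p + 3 < g) : HD g p h eA2 := by
  refine ⟨oA g (p + 2) (by omega), ?_, ?_⟩
  · have e : toMod g (oA g (p + 2) (by omega)) = AA g (p + 2) := (AA_lt (by omega)).symm
    rw [e]
    exact AA_hum (by omega) _ (by omega)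
  intro x
  have e : hT g (p + 2) = wx8 g p h eA2 := by
    apply free_ext
    · intro m
      rw [hT_fa, wx8_fa]
      by_cases h1 : (m : ℕ) = p
      · obtain rfl : m = ⟨p, q0 h⟩ := Fin.ext h1
        simp [eA2, ev8_t, ev8_f, ev8_nil, s0, s1, s2, s3, s4, s5, s6, s7]
        try group
      by_cases h2 : (m : ℕ) = p + 1
      · obtain rfl : m = ⟨p + 1, q1 h⟩ := Fin.ext h2
        simp [eA2, ev8_t, ev8_f, ev8_nil, s0, s1, s2, s3, s4, s5, s6, s7]
        try group
      by_cases h3 : (m : ℕ) = p + 2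
      · obtain rfl : m = ⟨p + 2, q2 h⟩ := Fin.ext h3
        simp [eA2, ev8_t, ev8_f, ev8_nil, s0, s1, s2, s3, s4, s5, s6, s7]
        try group
      by_cases h4 : (m : ℕ) = p + 3
      · obtain rfl : m = ⟨p + 3, q3 h⟩ := Fin.ext h4
        simp [eA2, ev8_t, ev8_f, ev8_nil, s0, s1, s2, s3, s4, s5, s6, s7]
        try group
      simp [h1, h2, h3, h4]
    · intro m
      rw [hT_fb, wx8_fb]
      by_cases h1 : (m : ℕ) = p
      · obtain rfl : m = ⟨p, q0 h⟩ := Fin.ext h1
        simp [eA2, ev8_t, ev8_f, ev8_nil, s0, s1, s2, s3, s4, s5, s6, s7]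
        try group
      by_cases h2 : (m : ℕ) = p + 1
      · obtain rfl : m = ⟨p + 1, q1 h⟩ := Fin.ext h2
        simp [eA2, ev8_t, ev8_f, ev8_nil, s0, s1, s2, s3, s4, s5, s6, s7]
        try group
      by_cases h3 : (m : ℕ) = p + 2
      · obtain rfl : m = ⟨p + 2, q2 h⟩ := Fin.ext h3
        simp [eA2, ev8_t, ev8_f, ev8_nil, s0, s1, s2, s3, s4, s5, s6, s7]
        try group
      by_cases h4 : (m : ℕ) = p + 3
      · obtain rfl : m = ⟨p + 3, q3 h⟩ := Fin.ext h4
        simp [eA2, ev8_t, ev8_f, ev8_nil, s0, s1, s2, s3, s4, s5, s6, s7]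
        try group
      simp [h1, h2, h3, h4]
  show tw g (p + 2) (mk g x) = _
  rw [tw_mk, e]

theorem heA3 (h : p + 3 < g) : HD g p h eA3 := by
  refine ⟨oA g (p + 3) (by omega), ?_, ?_⟩
  · have e : toMod g (oA g (p + 3) (by omega)) = AA g (p + 3) := (AA_lt (by omega)).symm
    rw [e]
    exact AA_hum (by omega) _ (by omega)
  intro x
  have e : hT g (p + 3) = wx8 g p h eA3 := by
    apply free_ext
    · intro m
      rw [hT_fa, wx8_fa]
      by_cases h1 : (m : ℕ) = p
      · obtain rfl : m = ⟨p, q0 h⟩ := Fin.ext h1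
        simp [eA3, ev8_t, ev8_f, ev8_nil, s0, s1, s2, s3, s4, s5, s6, s7]
        try group
      by_cases h2 : (m : ℕ) = p + 1
      · obtain rfl : m = ⟨p + 1, q1 h⟩ := Fin.ext h2
        simp [eA3, ev8_t, ev8_f, ev8_nil, s0, s1, s2, s3, s4, s5, s6, s7]
        try group
      by_cases h3 : (m : ℕ) = p + 2
      · obtain rfl : m = ⟨p + 2, q2 h⟩ := Fin.ext h3
        simp [eA3, ev8_t, ev8_f, ev8_nil, s0, s1, s2, s3, s4, s5, s6, s7]
        try group
      by_cases h4 : (m : ℕ) = p + 3
      · obtain rfl : m = ⟨p + 3, q3 h⟩ := Fin.ext h4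
        simp [eA3, ev8_t, ev8_f, ev8_nil, s0, s1, s2, s3, s4, s5, s6, s7]
        try group
      simp [h1, h2, h3, h4]
    · intro m
      rw [hT_fb, wx8_fb]
      by_cases h1 : (m : ℕ) = p
      · obtain rfl : m = ⟨p, q0 h⟩ := Fin.ext h1
        simp [eA3, ev8_t, ev8_f, ev8_nil, s0, s1, s2, s3, s4, s5, s6, s7]
        try group
      by_cases h2 : (m : ℕ) = p + 1
      · obtain rfl : m = ⟨p + 1, q1 h⟩ := Fin.ext h2
        simp [eA3, ev8_t, ev8_f, ev8_nil, s0, s1, s2, s3, s4, s5, s6, s7]
        try group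
      by_cases h3 : (m : ℕ) = p + 2
      · obtain rfl : m = ⟨p + 2, q2 h⟩ := Fin.ext h3
        simp [eA3, ev8_t, ev8_f, ev8_nil, s0, s1, s2, s3, s4, s5, s6, s7]
        try group
      by_cases h4 : (m : ℕ) = p + 3
      · obtain rfl : m = ⟨p + 3, q3 h⟩ := Fin.ext h4
        simp [eA3, ev8_t, ev8_f, ev8_nil, s0, s1, s2, s3, s4, s5, s6, s7]
        try group
      simp [h1, h2, h3, h4]
  show tw g (p + 3) (mk g x) = _
  rw [tw_mk, e]

theorem heB0 (h : p + 3 < g) : HD g p h eB0 := by
  refine ⟨oj g (2 * (p) + 1) (by omega), ?_, ?_⟩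
  · have e : toMod g (oj g (2 * (p) + 1) (by omega)) = tt g (2 * (p) + 1) :=
      (tt_lt (by omega)).symm
    rw [e]
    exact tt_mem (by omega)
  intro x
  have e : (fv ⟨2 * (p) + 1, by omega⟩ : FreeGroup (Fin g ⊕ Fin g) →* _) = wx8 g p h eB0 := by
    have e0 : (fv ⟨2 * (p) + 1, by omega⟩ : FreeGroup (Fin g ⊕ Fin g) →* _) =
        stepA ⟨p, by omega⟩ (fb ⟨p, by omega⟩) := by
      unfold fv
      rw [if_neg (by simp <;> omega)]
      have h2 : (2 * (p) + 1) / 2 = p := by omega
      simp only [h2]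
    rw [e0]
    apply free_ext
    · intro m
      rw [stepA_fa, wx8_fa]
      by_cases h1 : (m : ℕ) = p
      · obtain rfl : m = ⟨p, q0 h⟩ := Fin.ext h1
        simp [eB0, ev8_t, ev8_f, ev8_nil, s0, s1, s2, s3, s4, s5, s6, s7, Fin.ext_iff]
        try group
      by_cases h2 : (m : ℕ) = p + 1
      · obtain rfl : m = ⟨p + 1, q1 h⟩ := Fin.ext h2
        simp [eB0, ev8_t, ev8_f, ev8_nil, s0, s1, s2, s3, s4, s5, s6, s7, Fin.ext_iff]
        try group
      by_cases h3 : (m : ℕ) = p + 2
      · obtain rfl : m = ⟨p + 2, q2 h⟩ := Fin.ext h3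
        simp [eB0, ev8_t, ev8_f, ev8_nil, s0, s1, s2, s3, s4, s5, s6, s7, Fin.ext_iff]
        try group
      by_cases h4 : (m : ℕ) = p + 3
      · obtain rfl : m = ⟨p + 3, q3 h⟩ := Fin.ext h4
        simp [eB0, ev8_t, ev8_f, ev8_nil, s0, s1, s2, s3, s4, s5, s6, s7, Fin.ext_iff]
        try group
      simp [h1, h2, h3, h4, Fin.ext_iff]
    · intro m
      rw [stepA_fb, wx8_fb]
      by_cases h1 : (m : ℕ) = p
      · obtain rfl : m = ⟨p, q0 h⟩ := Fin.ext h1
        simp [eB0, ev8_t, ev8_f, ev8_nil, s0, s1, s2, s3, s4, s5, s6, s7, Fin.ext_iff]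
        try group
      by_cases h2 : (m : ℕ) = p + 1
      · obtain rfl : m = ⟨p + 1, q1 h⟩ := Fin.ext h2
        simp [eB0, ev8_t, ev8_f, ev8_nil, s0, s1, s2, s3, s4, s5, s6, s7, Fin.ext_iff]
        try group
      by_cases h3 : (m : ℕ) = p + 2
      · obtain rfl : m = ⟨p + 2, q2 h⟩ := Fin.ext h3
        simp [eB0, ev8_t, ev8_f, ev8_nil, s0, s1, s2, s3, s4, s5, s6, s7, Fin.ext_iff]
        try group
      by_cases h4 : (m : ℕ) = p + 3
      · obtain rfl : m = ⟨p + 3, q3 h⟩ := Fin.ext h4
        simp [eB0, ev8_t, ev8_f, ev8_nil, s0, s1, s2, s3, s4, s5, s6, s7, Fin.ext_iff]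
        try group
      simp [h1, h2, h3, h4, Fin.ext_iff]
  show sv ⟨2 * (p) + 1, by omega⟩ (mk g x) = _
  rw [sv_mk, e]

theorem heB1 (h : p + 3 < g) : HD g p h eB1 := by
  refine ⟨oj g (2 * (p + 1) + 1) (by omega), ?_, ?_⟩
  · have e : toMod g (oj g (2 * (p + 1) + 1) (by omega)) = tt g (2 * (p + 1) + 1) :=
      (tt_lt (by omega)).symm
    rw [e]
    exact tt_mem (by omega)
  intro x
  have e : (fv ⟨2 * (p + 1) + 1, by omega⟩ : FreeGroup (Fin g ⊕ Fin g) →* _) = wx8 g p h eB1 := by
    have e0 : (fv ⟨2 * (p + 1) + 1, by omega⟩ : FreeGroup (Fin g ⊕ Fin g) →* _) =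
        stepA ⟨p + 1, by omega⟩ (fb ⟨p + 1, by omega⟩) := by
      unfold fv
      rw [if_neg (by simp <;> omega)]
      have h2 : (2 * (p + 1) + 1) / 2 = p + 1 := by omega
      simp only [h2]
    rw [e0]
    apply free_ext
    · intro m
      rw [stepA_fa, wx8_fa]
      by_cases h1 : (m : ℕ) = p
      · obtain rfl : m = ⟨p, q0 h⟩ := Fin.ext h1
        simp [eB1, ev8_t, ev8_f, ev8_nil, s0, s1, s2, s3, s4, s5, s6, s7, Fin.ext_iff]
        try group
      by_cases h2 : (m : ℕ) = p + 1
      · obtain rfl : m = ⟨p + 1, q1 h⟩ := Fin.ext h2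
        simp [eB1, ev8_t, ev8_f, ev8_nil, s0, s1, s2, s3, s4, s5, s6, s7, Fin.ext_iff]
        try group
      by_cases h3 : (m : ℕ) = p + 2
      · obtain rfl : m = ⟨p + 2, q2 h⟩ := Fin.ext h3
        simp [eB1, ev8_t, ev8_f, ev8_nil, s0, s1, s2, s3, s4, s5, s6, s7, Fin.ext_iff]
        try group
      by_cases h4 : (m : ℕ) = p + 3
      · obtain rfl : m = ⟨p + 3, q3 h⟩ := Fin.ext h4
        simp [eB1, ev8_t, ev8_f, ev8_nil, s0, s1, s2, s3, s4, s5, s6, s7, Fin.ext_iff]
        try group
      simp [h1, h2, h3, h4, Fin.ext_iff]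
    · intro m
      rw [stepA_fb, wx8_fb]
      by_cases h1 : (m : ℕ) = p
      · obtain rfl : m = ⟨p, q0 h⟩ := Fin.ext h1
        simp [eB1, ev8_t, ev8_f, ev8_nil, s0, s1, s2, s3, s4, s5, s6, s7, Fin.ext_iff]
        try group
      by_cases h2 : (m : ℕ) = p + 1
      · obtain rfl : m = ⟨p + 1, q1 h⟩ := Fin.ext h2
        simp [eB1, ev8_t, ev8_f, ev8_nil, s0, s1, s2, s3, s4, s5, s6, s7, Fin.ext_iff]
        try group
      by_cases h3 : (m : ℕ) = p + 2
      · obtain rfl : m = ⟨p + 2, q2 h⟩ := Fin.ext h3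
        simp [eB1, ev8_t, ev8_f, ev8_nil, s0, s1, s2, s3, s4, s5, s6, s7, Fin.ext_iff]
        try group
      by_cases h4 : (m : ℕ) = p + 3
      · obtain rfl : m = ⟨p + 3, q3 h⟩ := Fin.ext h4
        simp [eB1, ev8_t, ev8_f, ev8_nil, s0, s1, s2, s3, s4, s5, s6, s7, Fin.ext_iff]
        try group
      simp [h1, h2, h3, h4, Fin.ext_iff]
  show sv ⟨2 * (p + 1) + 1, by omega⟩ (mk g x) = _
  rw [sv_mk, e]

theorem heB2 (h : p + 3 < g) : HD g p h eB2 := by
  refine ⟨oj g (2 * (p + 2) + 1) (by omega), ?_, ?_⟩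
  · have e : toMod g (oj g (2 * (p + 2) + 1) (by omega)) = tt g (2 * (p + 2) + 1) :=
      (tt_lt (by omega)).symm
    rw [e]
    exact tt_mem (by omega)
  intro x
  have e : (fv ⟨2 * (p + 2) + 1, by omega⟩ : FreeGroup (Fin g ⊕ Fin g) →* _) = wx8 g p h eB2 := by
    have e0 : (fv ⟨2 * (p + 2) + 1, by omega⟩ : FreeGroup (Fin g ⊕ Fin g) →* _) =
        stepA ⟨p + 2, by omega⟩ (fb ⟨p + 2, by omega⟩) := by
      unfold fv
      rw [if_neg (by simp <;> omega)]
      have h2 : (2 * (p + 2) + 1) / 2 = p + 2 := by omega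
      simp only [h2]
    rw [e0]
    apply free_ext
    · intro m
      rw [stepA_fa, wx8_fa]
      by_cases h1 : (m : ℕ) = p
      · obtain rfl : m = ⟨p, q0 h⟩ := Fin.ext h1
        simp [eB2, ev8_t, ev8_f, ev8_nil, s0, s1, s2, s3, s4, s5, s6, s7, Fin.ext_iff]
        try group
      by_cases h2 : (m : ℕ) = p + 1
      · obtain rfl : m = ⟨p + 1, q1 h⟩ := Fin.ext h2
        simp [eB2, ev8_t, ev8_f, ev8_nil, s0, s1, s2, s3, s4, s5, s6, s7, Fin.ext_iff]
        try group
      by_cases h3 : (m : ℕ) = p + 2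
      · obtain rfl : m = ⟨p + 2, q2 h⟩ := Fin.ext h3
        simp [eB2, ev8_t, ev8_f, ev8_nil, s0, s1, s2, s3, s4, s5, s6, s7, Fin.ext_iff]
        try group
      by_cases h4 : (m : ℕ) = p + 3
      · obtain rfl : m = ⟨p + 3, q3 h⟩ := Fin.ext h4
        simp [eB2, ev8_t, ev8_f, ev8_nil, s0, s1, s2, s3, s4, s5, s6, s7, Fin.ext_iff]
        try group
      simp [h1, h2, h3, h4, Fin.ext_iff]
    · intro m
      rw [stepA_fb, wx8_fb]
      by_cases h1 : (m : ℕ) = p
      · obtain rfl : m = ⟨p, q0 h⟩ := Fin.ext h1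
        simp [eB2, ev8_t, ev8_f, ev8_nil, s0, s1, s2, s3, s4, s5, s6, s7, Fin.ext_iff]
        try group
      by_cases h2 : (m : ℕ) = p + 1
      · obtain rfl : m = ⟨p + 1, q1 h⟩ := Fin.ext h2
        simp [eB2, ev8_t, ev8_f, ev8_nil, s0, s1, s2, s3, s4, s5, s6, s7, Fin.ext_iff]
        try group
      by_cases h3 : (m : ℕ) = p + 2
      · obtain rfl : m = ⟨p + 2, q2 h⟩ := Fin.ext h3
        simp [eB2, ev8_t, ev8_f, ev8_nil, s0, s1, s2, s3, s4, s5, s6, s7, Fin.ext_iff]
        try group
      by_cases h4 : (m : ℕ) = p + 3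
      · obtain rfl : m = ⟨p + 3, q3 h⟩ := Fin.ext h4
        simp [eB2, ev8_t, ev8_f, ev8_nil, s0, s1, s2, s3, s4, s5, s6, s7, Fin.ext_iff]
        try group
      simp [h1, h2, h3, h4, Fin.ext_iff]
  show sv ⟨2 * (p + 2) + 1, by omega⟩ (mk g x) = _
  rw [sv_mk, e]

theorem heB3 (h : p + 3 < g) : HD g p h eB3 := by
  refine ⟨oj g (2 * (p + 3) + 1) (by omega), ?_, ?_⟩
  · have e : toMod g (oj g (2 * (p + 3) + 1) (by omega)) = tt g (2 * (p + 3) + 1) :=
      (tt_lt (by omega)).symm
    rw [e]
    exact tt_mem (by omega)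
  intro x
  have e : (fv ⟨2 * (p + 3) + 1, by omega⟩ : FreeGroup (Fin g ⊕ Fin g) →* _) = wx8 g p h eB3 := by
    have e0 : (fv ⟨2 * (p + 3) + 1, by omega⟩ : FreeGroup (Fin g ⊕ Fin g) →* _) =
        stepA ⟨p + 3, by omega⟩ (fb ⟨p + 3, by omega⟩) := by
      unfold fv
      rw [if_neg (by simp <;> omega)]
      have h2 : (2 * (p + 3) + 1) / 2 = p + 3 := by omega
      simp only [h2]
    rw [e0]
    apply free_ext
    · intro m
      rw [stepA_fa, wx8_fa]
      by_cases h1 : (m : ℕ) = p
      · obtain rfl : m = ⟨p, q0 h⟩ := Fin.ext h1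
        simp [eB3, ev8_t, ev8_f, ev8_nil, s0, s1, s2, s3, s4, s5, s6, s7, Fin.ext_iff]
        try group
      by_cases h2 : (m : ℕ) = p + 1
      · obtain rfl : m = ⟨p + 1, q1 h⟩ := Fin.ext h2
        simp [eB3, ev8_t, ev8_f, ev8_nil, s0, s1, s2, s3, s4, s5, s6, s7, Fin.ext_iff]
        try group
      by_cases h3 : (m : ℕ) = p + 2
      · obtain rfl : m = ⟨p + 2, q2 h⟩ := Fin.ext h3
        simp [eB3, ev8_t, ev8_f, ev8_nil, s0, s1, s2, s3, s4, s5, s6, s7, Fin.ext_iff]
        try group
      by_cases h4 : (m : ℕ) = p + 3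
      · obtain rfl : m = ⟨p + 3, q3 h⟩ := Fin.ext h4
        simp [eB3, ev8_t, ev8_f, ev8_nil, s0, s1, s2, s3, s4, s5, s6, s7, Fin.ext_iff]
        try group
      simp [h1, h2, h3, h4, Fin.ext_iff]
    · intro m
      rw [stepA_fb, wx8_fb]
      by_cases h1 : (m : ℕ) = p
      · obtain rfl : m = ⟨p, q0 h⟩ := Fin.ext h1
        simp [eB3, ev8_t, ev8_f, ev8_nil, s0, s1, s2, s3, s4, s5, s6, s7, Fin.ext_iff]
        try group
      by_cases h2 : (m : ℕ) = p + 1
      · obtain rfl : m = ⟨p + 1, q1 h⟩ := Fin.ext h2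
        simp [eB3, ev8_t, ev8_f, ev8_nil, s0, s1, s2, s3, s4, s5, s6, s7, Fin.ext_iff]
        try group
      by_cases h3 : (m : ℕ) = p + 2
      · obtain rfl : m = ⟨p + 2, q2 h⟩ := Fin.ext h3
        simp [eB3, ev8_t, ev8_f, ev8_nil, s0, s1, s2, s3, s4, s5, s6, s7, Fin.ext_iff]
        try group
      by_cases h4 : (m : ℕ) = p + 3
      · obtain rfl : m = ⟨p + 3, q3 h⟩ := Fin.ext h4
        simp [eB3, ev8_t, ev8_f, ev8_nil, s0, s1, s2, s3, s4, s5, s6, s7, Fin.ext_iff]
        try group
      simp [h1, h2, h3, h4, Fin.ext_iff]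
  show sv ⟨2 * (p + 3) + 1, by omega⟩ (mk g x) = _
  rw [sv_mk, e]

theorem heC0 (h : p + 3 < g) : HD g p h eC0 := by
  refine ⟨oj g (2 * (p + 1)) (by omega), ?_, ?_⟩
  · have e : toMod g (oj g (2 * (p + 1)) (by omega)) = tt g (2 * (p + 1)) := (tt_lt (by omega)).symm
    rw [e]
    exact tt_mem (by omega)
  intro x
  have e : (fv ⟨2 * (p + 1), by omega⟩ : FreeGroup (Fin g ⊕ Fin g) →* _) = wx8 g p h eC0 := by
    rw [fv_even_eq (by omega)]
    have e1 : ee (⟨p + 1, by omega⟩ : Fin g) = fb ⟨p, by omega⟩ *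
        (fa ⟨p, by omega⟩)⁻¹ * (fb ⟨p, by omega⟩)⁻¹ * fa ⟨p + 1, by omega⟩ := by
      unfold ee
      rw [dif_pos (by simp)]
      rfl
    rw [e1]
    apply free_ext
    · intro m
      rw [stepE_fa, wx8_fa]
      by_cases h1 : (m : ℕ) = p
      · obtain rfl : m = ⟨p, q0 h⟩ := Fin.ext h1
        simp [eC0, ev8_t, ev8_f, ev8_nil, s0, s1, s2, s3, s4, s5, s6, s7, Fin.ext_iff]
        try group
      by_cases h2 : (m : ℕ) = p + 1
      · obtain rfl : m = ⟨p + 1, q1 h⟩ := Fin.ext h2
        simp [eC0, ev8_t, ev8_f, ev8_nil, s0, s1, s2, s3, s4, s5, s6, s7, Fin.ext_iff]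
        try group
      by_cases h3 : (m : ℕ) = p + 2
      · obtain rfl : m = ⟨p + 2, q2 h⟩ := Fin.ext h3
        simp [eC0, ev8_t, ev8_f, ev8_nil, s0, s1, s2, s3, s4, s5, s6, s7, Fin.ext_iff]
        try group
      by_cases h4 : (m : ℕ) = p + 3
      · obtain rfl : m = ⟨p + 3, q3 h⟩ := Fin.ext h4
        simp [eC0, ev8_t, ev8_f, ev8_nil, s0, s1, s2, s3, s4, s5, s6, s7, Fin.ext_iff]
        try group
      simp [h1, h2, h3, h4, Fin.ext_iff]
    · intro m
      rw [stepE_fb, wx8_fb]
      by_cases h1 : (m : ℕ) = p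
      · obtain rfl : m = ⟨p, q0 h⟩ := Fin.ext h1
        simp [eC0, ev8_t, ev8_f, ev8_nil, s0, s1, s2, s3, s4, s5, s6, s7, Fin.ext_iff]
        try group
      by_cases h2 : (m : ℕ) = p + 1
      · obtain rfl : m = ⟨p + 1, q1 h⟩ := Fin.ext h2
        simp [eC0, ev8_t, ev8_f, ev8_nil, s0, s1, s2, s3, s4, s5, s6, s7, Fin.ext_iff]
        try group
      by_cases h3 : (m : ℕ) = p + 2
      · obtain rfl : m = ⟨p + 2, q2 h⟩ := Fin.ext h3
        simp [eC0, ev8_t, ev8_f, ev8_nil, s0, s1, s2, s3, s4, s5, s6, s7, Fin.ext_iff]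
        try group
      by_cases h4 : (m : ℕ) = p + 3
      · obtain rfl : m = ⟨p + 3, q3 h⟩ := Fin.ext h4
        simp [eC0, ev8_t, ev8_f, ev8_nil, s0, s1, s2, s3, s4, s5, s6, s7, Fin.ext_iff]
        try group
      simp [h1, h2, h3, h4, Fin.ext_iff]
  show sv ⟨2 * (p + 1), by omega⟩ (mk g x) = _
  rw [sv_mk, e]

theorem heC1 (h : p + 3 < g) : HD g p h eC1 := by
  refine ⟨oj g (2 * (p + 2)) (by omega), ?_, ?_⟩
  · have e : toMod g (oj g (2 * (p + 2)) (by omega)) = tt g (2 * (p + 2)) := (tt_lt (by omega)).symm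
    rw [e]
    exact tt_mem (by omega)
  intro x
  have e : (fv ⟨2 * (p + 2), by omega⟩ : FreeGroup (Fin g ⊕ Fin g) →* _) = wx8 g p h eC1 := by
    rw [fv_even_eq (by omega)]
    have e1 : ee (⟨p + 2, by omega⟩ : Fin g) = fb ⟨p + 1, by omega⟩ *
        (fa ⟨p + 1, by omega⟩)⁻¹ * (fb ⟨p + 1, by omega⟩)⁻¹ * fa ⟨p + 2, by omega⟩ := by
      unfold ee
      rw [dif_pos (by simp)]
      rfl
    rw [e1]
    apply free_ext
    · intro m
      rw [stepE_fa, wx8_fa]
      by_cases h1 : (m : ℕ) = p
      · obtain rfl : m = ⟨p, q0 h⟩ := Fin.ext h1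
        simp [eC1, ev8_t, ev8_f, ev8_nil, s0, s1, s2, s3, s4, s5, s6, s7, Fin.ext_iff]
        try group
      by_cases h2 : (m : ℕ) = p + 1
      · obtain rfl : m = ⟨p + 1, q1 h⟩ := Fin.ext h2
        simp [eC1, ev8_t, ev8_f, ev8_nil, s0, s1, s2, s3, s4, s5, s6, s7, Fin.ext_iff]
        try group
      by_cases h3 : (m : ℕ) = p + 2
      · obtain rfl : m = ⟨p + 2, q2 h⟩ := Fin.ext h3
        simp [eC1, ev8_t, ev8_f, ev8_nil, s0, s1, s2, s3, s4, s5, s6, s7, Fin.ext_iff]
        try group
      by_cases h4 : (m : ℕ) = p + 3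
      · obtain rfl : m = ⟨p + 3, q3 h⟩ := Fin.ext h4
        simp [eC1, ev8_t, ev8_f, ev8_nil, s0, s1, s2, s3, s4, s5, s6, s7, Fin.ext_iff]
        try group
      simp [h1, h2, h3, h4, Fin.ext_iff]
    · intro m
      rw [stepE_fb, wx8_fb]
      by_cases h1 : (m : ℕ) = p
      · obtain rfl : m = ⟨p, q0 h⟩ := Fin.ext h1
        simp [eC1, ev8_t, ev8_f, ev8_nil, s0, s1, s2, s3, s4, s5, s6, s7, Fin.ext_iff]
        try group
      by_cases h2 : (m : ℕ) = p + 1
      · obtain rfl : m = ⟨p + 1, q1 h⟩ := Fin.ext h2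
        simp [eC1, ev8_t, ev8_f, ev8_nil, s0, s1, s2, s3, s4, s5, s6, s7, Fin.ext_iff]
        try group
      by_cases h3 : (m : ℕ) = p + 2
      · obtain rfl : m = ⟨p + 2, q2 h⟩ := Fin.ext h3
        simp [eC1, ev8_t, ev8_f, ev8_nil, s0, s1, s2, s3, s4, s5, s6, s7, Fin.ext_iff]
        try group
      by_cases h4 : (m : ℕ) = p + 3
      · obtain rfl : m = ⟨p + 3, q3 h⟩ := Fin.ext h4
        simp [eC1, ev8_t, ev8_f, ev8_nil, s0, s1, s2, s3, s4, s5, s6, s7, Fin.ext_iff]
        try group
      simp [h1, h2, h3, h4, Fin.ext_iff]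
  show sv ⟨2 * (p + 2), by omega⟩ (mk g x) = _
  rw [sv_mk, e]

theorem heC2 (h : p + 3 < g) : HD g p h eC2 := by
  refine ⟨oj g (2 * (p + 3)) (by omega), ?_, ?_⟩
  · have e : toMod g (oj g (2 * (p + 3)) (by omega)) = tt g (2 * (p + 3)) := (tt_lt (by omega)).symm
    rw [e]
    exact tt_mem (by omega)
  intro x
  have e : (fv ⟨2 * (p + 3), by omega⟩ : FreeGroup (Fin g ⊕ Fin g) →* _) = wx8 g p h eC2 := by
    rw [fv_even_eq (by omega)]
    have e1 : ee (⟨p + 3, by omega⟩ : Fin g) = fb ⟨p + 2, by omega⟩ *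
        (fa ⟨p + 2, by omega⟩)⁻¹ * (fb ⟨p + 2, by omega⟩)⁻¹ * fa ⟨p + 3, by omega⟩ := by
      unfold ee
      rw [dif_pos (by simp)]
      rfl
    rw [e1]
    apply free_ext
    · intro m
      rw [stepE_fa, wx8_fa]
      by_cases h1 : (m : ℕ) = p
      · obtain rfl : m = ⟨p, q0 h⟩ := Fin.ext h1
        simp [eC2, ev8_t, ev8_f, ev8_nil, s0, s1, s2, s3, s4, s5, s6, s7, Fin.ext_iff]
        try group
      by_cases h2 : (m : ℕ) = p + 1
      · obtain rfl : m = ⟨p + 1, q1 h⟩ := Fin.ext h2
        simp [eC2, ev8_t, ev8_f, ev8_nil, s0, s1, s2, s3, s4, s5, s6, s7, Fin.ext_iff]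
        try group
      by_cases h3 : (m : ℕ) = p + 2
      · obtain rfl : m = ⟨p + 2, q2 h⟩ := Fin.ext h3
        simp [eC2, ev8_t, ev8_f, ev8_nil, s0, s1, s2, s3, s4, s5, s6, s7, Fin.ext_iff]
        try group
      by_cases h4 : (m : ℕ) = p + 3
      · obtain rfl : m = ⟨p + 3, q3 h⟩ := Fin.ext h4
        simp [eC2, ev8_t, ev8_f, ev8_nil, s0, s1, s2, s3, s4, s5, s6, s7, Fin.ext_iff]
        try group
      simp [h1, h2, h3, h4, Fin.ext_iff]
    · intro m
      rw [stepE_fb, wx8_fb]
      by_cases h1 : (m : ℕ) = p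
      · obtain rfl : m = ⟨p, q0 h⟩ := Fin.ext h1
        simp [eC2, ev8_t, ev8_f, ev8_nil, s0, s1, s2, s3, s4, s5, s6, s7, Fin.ext_iff]
        try group
      by_cases h2 : (m : ℕ) = p + 1
      · obtain rfl : m = ⟨p + 1, q1 h⟩ := Fin.ext h2
        simp [eC2, ev8_t, ev8_f, ev8_nil, s0, s1, s2, s3, s4, s5, s6, s7, Fin.ext_iff]
        try group
      by_cases h3 : (m : ℕ) = p + 2
      · obtain rfl : m = ⟨p + 2, q2 h⟩ := Fin.ext h3
        simp [eC2, ev8_t, ev8_f, ev8_nil, s0, s1, s2, s3, s4, s5, s6, s7, Fin.ext_iff]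
        try group
      by_cases h4 : (m : ℕ) = p + 3
      · obtain rfl : m = ⟨p + 3, q3 h⟩ := Fin.ext h4
        simp [eC2, ev8_t, ev8_f, ev8_nil, s0, s1, s2, s3, s4, s5, s6, s7, Fin.ext_iff]
        try group
      simp [h1, h2, h3, h4, Fin.ext_iff]
  show sv ⟨2 * (p + 3), by omega⟩ (mk g x) = _
  rw [sv_mk, e]

theorem heR0 (h : p + 3 < g) : HD g p h eR0 :=
  (((((heA0 h).mul (heB0 h) rfl).mul (heA0 h) rfl).mul (heA0 h) rfl).mul (heB0 h) rfl).mul (heA0 h) (by decide +kernel)

theorem heRi0 (h : p + 3 < g) : HD g p h eRi0 :=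
  (heR0 h).inv (by decide +kernel)

theorem heT0 (h : p + 3 < g) : HD g p h eT0 :=
  ((heR0 h).mul (heC0 h) rfl).mul (heRi0 h) (by decide +kernel)

theorem heR1 (h : p + 3 < g) : HD g p h eR1 :=
  (((((heA1 h).mul (heB1 h) rfl).mul (heA1 h) rfl).mul (heA1 h) rfl).mul (heB1 h) rfl).mul (heA1 h) (by decide +kernel)

theorem heRi1 (h : p + 3 < g) : HD g p h eRi1 :=
  (heR1 h).inv (by decide +kernel)

theorem heT1 (h : p + 3 < g) : HD g p h eT1 :=
  ((heR1 h).mul (heC1 h) rfl).mul (heRi1 h) (by decide +kernel)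

theorem heR2 (h : p + 3 < g) : HD g p h eR2 :=
  (((((heA2 h).mul (heB2 h) rfl).mul (heA2 h) rfl).mul (heA2 h) rfl).mul (heB2 h) rfl).mul (heA2 h) (by decide +kernel)

theorem heRi2 (h : p + 3 < g) : HD g p h eRi2 :=
  (heR2 h).inv (by decide +kernel)

theorem heT2 (h : p + 3 < g) : HD g p h eT2 :=
  ((heR2 h).mul (heC2 h) rfl).mul (heRi2 h) (by decide +kernel)

theorem heQ (h : p + 3 < g) : HD g p h eQ :=
  (heR0 h).mul (heR0 h) (by decide +kernel)

theorem heQi (h : p + 3 < g) : HD g p h eQi :=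
  (heQ h).inv (by decide +kernel)

theorem heAi (h : p + 3 < g) : HD g p h eAi :=
  (heA0 h).inv (by decide +kernel)

theorem heM (h : p + 3 < g) : HD g p h eM :=
  ((heA1 h).mul (heB1 h) rfl).mul (heT0 h) (by decide +kernel)

theorem heM4 (h : p + 3 < g) : HD g p h eM4 :=
  (((heM h).mul (heM h) rfl).mul (heM h) rfl).mul (heM h) (by decide +kernel)

theorem heal1 (h : p + 3 < g) : HD g p h eal1 :=
  ((((heQi h).mul (heM4 h) rfl).mul (heQ h) rfl).mul (heAi h) rfl).mul (heAi h) (by decide +kernel)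

theorem heS1 (h : p + 3 < g) : HD g p h eS1 :=
  ((((((((((((((heA1 h).mul (heB1 h) rfl).mul (heT1 h) rfl).mul (heB2 h) rfl).mul (heA2 h) rfl).mul (heA1 h) rfl).mul (heB1 h) rfl).mul (heT1 h) rfl).mul (heB2 h) rfl).mul (heA1 h) rfl).mul (heB1 h) rfl).mul (heT1 h) rfl).mul (heA1 h) rfl).mul (heB1 h) rfl).mul (heA1 h) (by decide +kernel)

theorem heSi1 (h : p + 3 < g) : HD g p h eSi1 :=
  (heS1 h).inv (by decide +kernel)

theorem heal2 (h : p + 3 < g) : HD g p h eal2 :=
  ((heS1 h).mul (heal1 h) rfl).mul (heSi1 h) (by decide +kernel)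

theorem heS2 (h : p + 3 < g) : HD g p h eS2 :=
  ((((((((((((((heA2 h).mul (heB2 h) rfl).mul (heT2 h) rfl).mul (heB3 h) rfl).mul (heA3 h) rfl).mul (heA2 h) rfl).mul (heB2 h) rfl).mul (heT2 h) rfl).mul (heB3 h) rfl).mul (heA2 h) rfl).mul (heB2 h) rfl).mul (heT2 h) rfl).mul (heA2 h) rfl).mul (heB2 h) rfl).mul (heA2 h) (by decide +kernel)

theorem heSi2 (h : p + 3 < g) : HD g p h eSi2 :=
  (heS2 h).inv (by decide +kernel)

theorem heal3 (h : p + 3 < g) : HD g p h eal3 :=
  ((heS2 h).mul (heal2 h) rfl).mul (heSi2 h) (by decide +kernel)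

end

end Pool.Agent.E8helper15.MGR
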